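import Pool.Agent.helper62.DP7.All

/-!
# The square of a sparse subcubic graph has DP-chromatic number at most seven

For a finite graph `G` of maximum degree at most three, girth at least six and maximum average degree less than `17/6` every `7`-fold cover of the square of
`G` has a colouring.
-/

set_option autoImplicit false

namespace Pool.Agent.Results.MP_e3efbc_co.SparseSquareDPSeven

/-- The square of `G`: two distinct vertices are adjacent if their distance in `G` is one or two. -/
def square {V : Type} (G : SimpleGraph V) : SimpleGraph V where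
  Adj a b := a ≠ b ∧ (G.Adj a b ∨ ∃ c, G.Adj a c ∧ G.Adj c b)
  symm := by
    constructor
    rintro a b ⟨h1, h2⟩
    refine ⟨h1.symm, ?_⟩
    rcases h2 with h | ⟨c, h3, h4⟩
    · exact Or.inl h.symm
    · exact Or.inr ⟨c, h4.symm, h3.symm⟩
  loopless := ⟨fun a h => h.1 rfl⟩

/-- `(L, M)` is a `k`-fold cover of `H`: the sets `L v` have `k` elements, they partition the vertices of `M`, they are cliques of `M`, the edges of `M` between `L u` and `L v`
form a matching if `u`, `v` are adjacent in `H`, and there are none if `u`, `v` are different and not adjacent. -/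
structure IsCover {V W : Type} (H : SimpleGraph V) (k : ℕ) (L : V → Finset W) (M : SimpleGraph W) : Prop where
  card : ∀ v, (L v).card = k
  part : ∀ w, ∃! v, w ∈ L v
  clique : ∀ v, ∀ a ∈ L v, ∀ b ∈ L v, a ≠ b → M.Adj a b
  matching : ∀ u v, H.Adj u v → ∀ a ∈ L u, ∀ b ∈ L v, ∀ b' ∈ L v, M.Adj a b → M.Adj a b' → b = b'
  nonadj : ∀ u v, u ≠ v → ¬ H.Adj u v → ∀ a ∈ L u, ∀ b ∈ L v, ¬ M.Adj a b

/-- The DP-chromatic number: the least `k ≥ 1` such that for every `k`-fold cover `(L, M)` of `H` there is an independent set of `M` with exactly one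
vertex `f v` in each set `L v`. -/
noncomputable def dpChromatic {V : Type} (H : SimpleGraph V) : ℕ :=
  sInf {k | 1 ≤ k ∧ ∀ (W : Type) (L : V → Finset W) (M : SimpleGraph W), IsCover H k L M →
    ∃ f : V → W, (∀ v, f v ∈ L v) ∧ ∀ u v, ¬ M.Adj (f u) (f v)}

/-- Maximum degree at most three (`h3`), no cycles of length less than six (`hg`), maximum average degree less than `17/6` (`hs`: for every nonempty set `A` of vertices
the sum of the degrees of the induced subgraph, which is the number of the ordered pairs of adjacent vertices of `A`, is less than `17/6 * #A`). -/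
theorem result (V : Type) [Fintype V] (G : SimpleGraph V) (h3 : ∀ x, (G.neighborSet x).ncard ≤ 3)
    (hg : ∀ (v : V) (c : G.Walk v v), c.IsCycle → 6 ≤ c.length)
    (hs : ∀ A : Finset V, A.Nonempty → 6 * {p : V × V | p.1 ∈ A ∧ p.2 ∈ A ∧ G.Adj p.1 p.2}.ncard < 17 * A.card) :
    dpChromatic (square G) ≤ 7 := by
  classical
  apply Nat.sInf_le
  refine ⟨by norm_num, ?_⟩
  intro W L M hc
  have hcov : Pool.Agent.helper62.DP7.Cov M.Adj L :=
    { symm := fun a b h => h.symm
      mat := by
        intro u v huv a ha b hb b' hb' h1 h2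
        by_cases hadj : (square G).Adj u v
        · exact hc.matching u v hadj a ha b hb b' hb' h1 h2
        · exact absurd h1 (hc.nonadj u v huv hadj a ha b hb)
      big := fun v => (hc.card v).ge }
  obtain ⟨f, hf1, hf2⟩ := Pool.Agent.helper62.DP7.IND_pf V W G M.Adj L hcov (Pool.Agent.helper62.DP7.GIR_pf V G hg)
    (fun A x _ => Pool.Agent.helper62.DP7.HND_deg G h3 A x)
    (fun A hA => by
      have h := hs A hA
      rw [Pool.Agent.helper62.DP7.HND_sum] at h
      exact h) Finset.univ
  refine ⟨f, fun v => hf1 v (Finset.mem_univ v), ?_⟩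
  intro u v h
  by_cases huv : u = v
  · subst huv
    exact M.loopless.irrefl _ h
  · by_cases hadj : (square G).Adj u v
    · refine hf2 u (Finset.mem_univ u) v (Finset.mem_univ v) ⟨huv, ?_⟩ h
      rcases hadj.2 with h1 | ⟨c, h1, h2⟩
      · exact Or.inl h1
      · exact Or.inr ⟨c, Finset.mem_univ c, h1, h2⟩
    · exact hc.nonadj u v huv hadj _ (hf1 u (Finset.mem_univ u)) _ (hf1 v (Finset.mem_univ v)) h

end Pool.Agent.Results.MP_e3efbc_co.SparseSquareDPSeven
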