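import Pool.Agent.helper62.DP8.All

/-!
# The square of a subcubic graph without an induced Petersen graph has DP-chromatic number at most eight

For a finite graph `G` of maximum degree at most three with no induced subgraph isomorphic to the Petersen graph, every `8`-fold cover of the square of
`G` has a colouring.
-/

set_option autoImplicit false

namespace Pool.Agent.Results.MP_e3efbc_co.SquareDPEight

/-- The square of `G`: two distinct vertices are adjacent if their distance in `G` is one or two. -/
def square {V : Type} (G : SimpleGraph V) : SimpleGraph V where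
  Adj a b := a ≠ b ∧ (G.Adj a b ∨ ∃ c, G.Adj a c ∧ G.Adj c b)
  symm := by
    constructor
    rintro a b ⟨h1, h2⟩
    refine ⟨h1.symm, ?_⟩
    rcases h2 with h | ⟨c, h3, h4⟩
    · exact Or.inl h.symm
    · exact Or.inr ⟨c, h4.symm, h3.symm⟩
  loopless := ⟨fun a h => h.1 rfl⟩

/-- `(L, M)` is a `k`-fold cover of `H`: the sets `L v` have `k` elements, they partition the vertices of `M`, they are cliques of `M`, the edges of `M` between `L u` and `L v`
form a matching if `u`, `v` are adjacent in `H`, and there are none if `u`, `v` are different and not adjacent. -/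
structure IsCover {V W : Type} (H : SimpleGraph V) (k : ℕ) (L : V → Finset W) (M : SimpleGraph W) : Prop where
  card : ∀ v, (L v).card = k
  part : ∀ w, ∃! v, w ∈ L v
  clique : ∀ v, ∀ a ∈ L v, ∀ b ∈ L v, a ≠ b → M.Adj a b
  matching : ∀ u v, H.Adj u v → ∀ a ∈ L u, ∀ b ∈ L v, ∀ b' ∈ L v, M.Adj a b → M.Adj a b' → b = b'
  nonadj : ∀ u v, u ≠ v → ¬ H.Adj u v → ∀ a ∈ L u, ∀ b ∈ L v, ¬ M.Adj a b

/-- The DP-chromatic number: the least `k ≥ 1` such that for every `k`-fold cover `(L, M)` of `H` there is an independent set of `M` with exactly one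
vertex `f v` in each set `L v`. -/
noncomputable def dpChromatic {V : Type} (H : SimpleGraph V) : ℕ :=
  sInf {k | 1 ≤ k ∧ ∀ (W : Type) (L : V → Finset W) (M : SimpleGraph W), IsCover H k L M →
    ∃ f : V → W, (∀ v, f v ∈ L v) ∧ ∀ u v, ¬ M.Adj (f u) (f v)}

/-- The Petersen graph: the pairs of elements of a set with five elements, adjacent if they are disjoint. -/
def petersen : SimpleGraph {s : Finset (Fin 5) // s.card = 2} where
  Adj s t := Disjoint s.1 t.1
  symm := ⟨fun _ _ h => Disjoint.symm h⟩
  loopless := ⟨fun s h => by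
    have h1 : s.1 = ∅ := by simpa using h
    have h2 := s.2
    rw [h1] at h2
    simp at h2⟩

theorem result (V : Type) [Fintype V] (G : SimpleGraph V) (h3 : ∀ x, (G.neighborSet x).ncard ≤ 3)
    (hP : IsEmpty (petersen ↪g G)) : dpChromatic (square G) ≤ 8 := by
  have hG : Pool.Agent.helper62.DP8.Goal G := Pool.Agent.helper62.DP8.SUB_pf V G h3 ⟨fun e => hP.false e⟩
  apply Nat.sInf_le
  refine ⟨by norm_num, ?_⟩
  intro W L M hc
  rcases isEmpty_or_nonempty V with hV | hV
  · exact ⟨fun v => (hV.false v).elim, fun v => (hV.false v).elim, fun v => (hV.false v).elim⟩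
  obtain ⟨v0⟩ := hV
  have hne : (L v0).Nonempty := by
    rw [← Finset.card_pos, hc.card v0]; norm_num
  obtain ⟨w0, hw0⟩ := hne
  obtain ⟨f, hf1, hf2⟩ := hG W M.Adj L ⟨w0⟩
    { symm := fun a b h => h.symm
      mat := by
        intro u v huv a ha b hb b' hb' h1 h2
        by_cases hadj : (square G).Adj u v
        · exact hc.matching u v hadj a ha b hb b' hb' h1 h2
        · exact absurd h1 (hc.nonadj u v huv hadj a ha b hb)
      non := fun u v huv hadj a ha b hb => hc.nonadj u v huv hadj a ha b hb }
    (fun v => (hc.card v).ge)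
  refine ⟨f, hf1, ?_⟩
  intro u v h
  by_cases huv : u = v
  · subst huv
    exact M.loopless.irrefl _ h
  · exact hf2 u v huv h

end Pool.Agent.Results.MP_e3efbc_co.SquareDPEight
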